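import Mathlib

open MeasureTheory

namespace Pool.Agent.Helper49.LBM

/-- The intersection of the symmetric strips `|a u x| ≤ h u`. -/
def K {ι E : Type} [AddCommGroup E] [Module ℝ E] (a : ι → E →ₗ[ℝ] ℝ) (h : ι → ℝ) : Set E :=
  {x | ∀ u, |a u x| ≤ h u}

/-- The volume of `K a h`. -/
noncomputable def V {ι E : Type} [AddCommGroup E] [Module ℝ E] [MeasureSpace E]
    (a : ι → E →ₗ[ℝ] ℝ) (h : ι → ℝ) : ℝ :=
  (volume (K a h)).toReal

/-- The functionals separate points. -/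
def Spans {ι E : Type} [AddCommGroup E] [Module ℝ E] (a : ι → E →ₗ[ℝ] ℝ) : Prop :=
  ∀ x, (∀ u, a u x = 0) → x = 0

/-- The coordinatewise exponential. -/
noncomputable def ex {ι : Type} (σ : ι → ℝ) : ι → ℝ := fun u => Real.exp (σ u)

/-- The logarithm of the volume in logarithmic coordinates. -/
noncomputable def G {ι E : Type} [AddCommGroup E] [Module ℝ E] [MeasureSpace E]
    (a : ι → E →ₗ[ℝ] ℝ) (σ : ι → ℝ) : ℝ :=
  Real.log (V a (ex σ))

/-- The midpoint. -/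
noncomputable def mid {ι : Type} (σ τ : ι → ℝ) : ι → ℝ := fun u => (σ u + τ u) / 2

/-- The defect of midpoint concavity of `G`. -/
noncomputable def Phi {ι E : Type} [AddCommGroup E] [Module ℝ E] [MeasureSpace E]
    (a : ι → E →ₗ[ℝ] ℝ) (σ τ : ι → ℝ) : ℝ :=
  G a σ + G a τ - 2 * G a (mid σ τ)

/-- Every strip touches the body. -/
def Tight {ι E : Type} [AddCommGroup E] [Module ℝ E] (a : ι → E →ₗ[ℝ] ℝ) (σ : ι → ℝ) : Prop :=
  ∀ u, ∃ x ∈ K a (ex σ), a u x = ex σ u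

/-- Approximate first order condition in the first variable. -/
def NearMax {ι E : Type} [Fintype ι] [AddCommGroup E] [Module ℝ E] [MeasureSpace E]
    (a : ι → E →ₗ[ℝ] ℝ) (ε : ℝ) (σ τ : ι → ℝ) : Prop :=
  ∀ σ' : ι → ℝ, G a σ' - G a σ - 2 * (G a (mid σ' τ) - G a (mid σ τ)) ≤ ε * ‖σ' - σ‖

/-- The functional `(y, z) ↦ b y + q z`. -/
noncomputable def lin {F : Type} [AddCommGroup F] [Module ℝ F] (b : F →ₗ[ℝ] ℝ) (q : ℝ) :
    F × ℝ →ₗ[ℝ] ℝ :=
  b.comp (LinearMap.fst ℝ F ℝ) + q • LinearMap.snd ℝ F ℝ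

/-- The family of functionals `(y, z) ↦ b u y + q u z`. -/
noncomputable def lins {ι F : Type} [AddCommGroup F] [Module ℝ F] (b : ι → F →ₗ[ℝ] ℝ)
    (q : ι → ℝ) : ι → F × ℝ →ₗ[ℝ] ℝ :=
  fun u => lin (b u) (q u)

/-- The projection of the body to `F`. -/
def Pr {ι F : Type} [AddCommGroup F] [Module ℝ F] (b : ι → F →ₗ[ℝ] ℝ) (q : ι → ℝ)
    (h : ι → ℝ) : Set F :=
  {y | ∃ z : ℝ, (y, z) ∈ K (lins b q) h}

/-- The volume of the projection of the body. -/
noncomputable def A {ι F : Type} [AddCommGroup F] [Module ℝ F] [MeasureSpace F]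
    (b : ι → F →ₗ[ℝ] ℝ) (q : ι → ℝ) (h : ι → ℝ) : ℝ :=
  (volume (Pr b q h)).toReal

/-- The basic properties of the volume. -/
structure Basic {ι E : Type} [Fintype ι] [NormedAddCommGroup E] [NormedSpace ℝ E]
    [MeasureSpace E] (a : ι → E →ₗ[ℝ] ℝ) : Prop where
  closed : ∀ h, IsClosed (K a h)
  compact : ∀ h, IsCompact (K a h)
  lt_top : ∀ h, volume (K a h) < ⊤
  pos : ∀ h : ι → ℝ, (∀ u, 0 < h u) → 0 < V a h
  mono : ∀ h h' : ι → ℝ, (∀ u, h u ≤ h' u) → V a h ≤ V a h'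
  smul : ∀ (h : ι → ℝ) (c : ℝ), 0 < c →
    V a (fun u => c * h u) = c ^ Module.finrank ℝ E * V a h
  G_mono : ∀ σ τ : ι → ℝ, (∀ u, σ u ≤ τ u) → G a σ ≤ G a τ
  G_add : ∀ (σ : ι → ℝ) (c : ℝ), G a (fun u => σ u + c) = G a σ + Module.finrank ℝ E * c
  G_lip : ∀ σ τ : ι → ℝ, |G a σ - G a τ| ≤ Module.finrank ℝ E * ‖σ - τ‖
  G_cont : Continuous (G a)

/-- A polygon in the plane given by symmetric strips. -/
def R {κ : Type} (β1 β2 : κ → ℝ) (A B : ℝ) (c : κ → ℝ) : Set (ℝ × ℝ) :=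
  {y | |y.1| ≤ A ∧ |y.2| ≤ B ∧ ∀ e, |β1 e * y.1 + β2 e * y.2| ≤ c e}

/-- The upper boundary of the polygon `R` as a function of the first coordinate. -/
noncomputable def gU {κ : Type} [Fintype κ] (β1 β2 : κ → ℝ) (B : ℝ) (c : κ → ℝ) (y : ℝ) : ℝ :=
  (Finset.univ : Finset (Option κ)).inf' ⟨none, Finset.mem_univ _⟩ fun o =>
    o.elim B fun e => if 0 < β2 e then (c e - β1 e * y) / β2 e else B

/-- The depth of the cut at a corner, as a function of the distance from the corner; `s` selects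
the constraints which are used. -/
noncomputable def cut {κ : Type} [Fintype κ] (s : κ → Prop) (β1 β2 X : κ → ℝ) (U : ℝ) : ℝ :=
  open Classical in
  (Finset.univ : Finset (Option κ)).sup' ⟨none, Finset.mem_univ _⟩ fun o =>
    o.elim 0 fun e => if s e ∧ 0 < β2 e then (X e - |β1 e| * U) / β2 e else 0

end Pool.Agent.Helper49.LBM
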