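import Pool.Agent.Helper49.LBM.Defs
import Pool.Agent.Helper86.LP.Defs

open MeasureTheory

namespace Pool.Agent.Helper49.LBM

/-- Basic properties of the volume, in every dimension. -/
def ST_BAS : Prop :=
  ∀ (ι : Type) [Fintype ι] (E : Type) [NormedAddCommGroup E] [NormedSpace ℝ E]
    [FiniteDimensional ℝ E] [MeasureSpace E] [BorelSpace E]
    [(volume : Measure E).IsAddHaarMeasure] (a : ι → E →ₗ[ℝ] ℝ), Spans a → Basic a

/-- A change of coordinates multiplies all volumes by a constant. -/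
def ST_TRF : Prop :=
  ∀ (E : Type) [NormedAddCommGroup E] [NormedSpace ℝ E]
    [FiniteDimensional ℝ E] [MeasureSpace E] [BorelSpace E]
    [(volume : Measure E).IsAddHaarMeasure]
    (F : Type) [NormedAddCommGroup F] [NormedSpace ℝ F]
    [FiniteDimensional ℝ F] [MeasureSpace F] [BorelSpace F]
    [(volume : Measure F).IsAddHaarMeasure] (L : E ≃ₗ[ℝ] F),
    ∃ c : ℝ, 0 < c ∧ ∀ (ι : Type) (a : ι → F →ₗ[ℝ] ℝ) (h : ι → ℝ),
      V (fun u => (a u).comp (L : E →ₗ[ℝ] F)) h = c * V a h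

/-- Tightening. -/
def ST_TAU : Prop :=
  ∀ (ι : Type) [Fintype ι] (E : Type) [NormedAddCommGroup E] [NormedSpace ℝ E]
    [FiniteDimensional ℝ E] [MeasureSpace E] [BorelSpace E]
    [(volume : Measure E).IsAddHaarMeasure] (a : ι → E →ₗ[ℝ] ℝ), Spans a →
    (∀ u, a u ≠ 0) →
    ∃ T : (ι → ℝ) → (ι → ℝ),
      (∀ σ u, T σ u ≤ σ u) ∧
      (∀ σ, K a (ex (T σ)) = K a (ex σ)) ∧
      (∀ σ τ, ‖T σ - T τ‖ ≤ ‖σ - τ‖) ∧
      (∀ σ, Tight a (T σ)) ∧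
      (∀ σ, Tight a σ → T σ = σ)

/-- The defect is bounded above. -/
def ST_BND : Prop :=
  ∀ (ι : Type) [Fintype ι] (d : ℕ) (a : ι → (Fin d → ℝ) →ₗ[ℝ] ℝ), Spans a →
    ∃ C : ℝ, ∀ σ τ : ι → ℝ, Phi a σ τ ≤ C

/-- The defect is bounded above, for every space. -/
def ST_BNE : Prop :=
  ∀ (ι : Type) [Fintype ι] (E : Type) [NormedAddCommGroup E] [NormedSpace ℝ E]
    [FiniteDimensional ℝ E] [MeasureSpace E] [BorelSpace E]
    [(volume : Measure E).IsAddHaarMeasure] (a : ι → E →ₗ[ℝ] ℝ), Spans a →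
    ∃ C : ℝ, ∀ σ τ : ι → ℝ, Phi a σ τ ≤ C

/-- Existence of a tight near maximiser. -/
def ST_MAX : Prop :=
  ∀ (ι : Type) [Fintype ι] (E : Type) [NormedAddCommGroup E] [NormedSpace ℝ E]
    [FiniteDimensional ℝ E] [MeasureSpace E] [BorelSpace E]
    [(volume : Measure E).IsAddHaarMeasure] (a : ι → E →ₗ[ℝ] ℝ), Spans a →
    (∀ u, a u ≠ 0) → (∃ C : ℝ, ∀ σ τ : ι → ℝ, Phi a σ τ ≤ C) →
    ∀ ε : ℝ, 0 < ε → ∀ σ0 τ0 : ι → ℝ, ∃ σ τ : ι → ℝ, Tight a σ ∧ Tight a τ ∧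
      Phi a σ0 τ0 ≤ Phi a σ τ ∧ NearMax a ε σ τ ∧ NearMax a ε τ σ

/-- Shrinking all strips in the vertical direction. -/
def ST_VA : Prop :=
  ∀ (ι : Type) [Fintype ι] (F : Type) [NormedAddCommGroup F] [NormedSpace ℝ F]
    [FiniteDimensional ℝ F] [MeasureSpace F] [BorelSpace F]
    [(volume : Measure F).IsAddHaarMeasure] (b : ι → F →ₗ[ℝ] ℝ) (q : ι → ℝ),
    (∀ u, 0 ≤ q u) → Spans (lins b q) → ∀ (h : ι → ℝ) (δ : ℝ), 0 ≤ δ →
    V (lins b q) h - 2 * δ * A b q h ≤ V (lins b q) (fun u => h u - δ * q u)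

/-- The chords are not too long. -/
def ST_VB : Prop :=
  ∀ (ι : Type) [Fintype ι] (F : Type) [NormedAddCommGroup F] [NormedSpace ℝ F]
    [FiniteDimensional ℝ F] [MeasureSpace F] [BorelSpace F]
    [(volume : Measure F).IsAddHaarMeasure] (b : ι → F →ₗ[ℝ] ℝ) (q : ι → ℝ),
    (∀ u, 0 ≤ q u) → Spans (lins b q) → ∀ (h : ι → ℝ) (u : ι),
    q u * V (lins b q) h ≤ 2 * h u * A b q h

/-- The product of the volume losses for two reciprocal families of weights. -/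
def ST_VC : Prop :=
  ∀ (ι : Type) [Fintype ι] (F : Type) [NormedAddCommGroup F] [NormedSpace ℝ F]
    [FiniteDimensional ℝ F] [MeasureSpace F] [BorelSpace F]
    [(volume : Measure F).IsAddHaarMeasure] (b : ι → F →ₗ[ℝ] ℝ) (q : ι → ℝ),
    (∀ u, 0 ≤ q u) → Spans (lins b q) → ∀ (h w : ι → ℝ), (∀ u, 0 < h u) → (∀ u, 0 < w u) →
    ∀ η : ℝ, 0 < η → η < A b q h → ∃ δ0 : ℝ, 0 < δ0 ∧ ∀ δ : ℝ, 0 < δ → δ < δ0 →
      4 * δ ^ 2 * (A b q h - η) ^ 2 ≤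
        (V (lins b q) h - V (lins b q) (fun u => h u - δ * (q u * w u))) *
        (V (lins b q) h - V (lins b q) (fun u => h u - δ * (q u / w u)))

/-- The variational inequality. -/
def ST_VAR : Prop :=
  ∀ (ι : Type) [Fintype ι] (F : Type) [NormedAddCommGroup F] [NormedSpace ℝ F]
    [FiniteDimensional ℝ F] [MeasureSpace F] [BorelSpace F]
    [(volume : Measure F).IsAddHaarMeasure] (b : ι → F →ₗ[ℝ] ℝ) (q : ι → ℝ),
    (∀ u, 0 ≤ q u) → Spans (lins b q) → ∀ (ε : ℝ), 0 < ε → ∀ σ τ : ι → ℝ,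
    NearMax (lins b q) ε σ τ → NearMax (lins b q) ε τ σ →
      V (lins b q) (ex σ) * V (lins b q) (ex τ) * A b q (ex (mid σ τ)) ^ 2 ≤
        (1 + ε) ^ 2 * V (lins b q) (ex (mid σ τ)) ^ 2 * (A b q (ex σ) * A b q (ex τ))

/-- The projection is given by pairs of strips (Helly on the line). -/
def ST_PH : Prop :=
  ∀ (ι : Type) [Fintype ι] (F : Type) [AddCommGroup F] [Module ℝ F]
    (b : ι → F →ₗ[ℝ] ℝ) (q : ι → ℝ), (∀ u, 0 ≤ q u) → (∃ u, 0 < q u) → ∀ h : ι → ℝ,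
    Pr b q h = {y | ∀ i j, |q j * b i y - q i * b j y| ≤ q j * h i + q i * h j}

/-- Scaling of plane sets. -/
def ST_PS : Prop :=
  ∀ (S : Set (ℝ × ℝ)) (s t : ℝ), 0 < s → 0 < t →
    (volume {y : ℝ × ℝ | (y.1 / s, y.2 / t) ∈ S}).toReal = s * t * (volume S).toReal

/-- Area of a polygon which touches the right side of its box. -/
def ST_PA : Prop :=
  ∀ (κ : Type) [Fintype κ] (β1 β2 : κ → ℝ) (A B : ℝ) (c : κ → ℝ), 0 < A → 0 < B →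
    (∀ e, 0 ≤ β2 e) → (∃ y ∈ R β1 β2 A B c, y.1 = A) →
    (volume (R β1 β2 A B c)).toReal ≤ 2 * ∫ y in (-A)..A, gU β1 β2 B c y

/-- Lower bound for the area of a polygon. -/
def ST_PB : Prop :=
  ∀ (κ : Type) [Fintype κ] (β1 β2 : κ → ℝ) (A B : ℝ) (c : κ → ℝ), 0 < A → 0 < B →
    (∀ e, 0 ≤ β2 e) → (∀ e, β2 e = 0 → |β1 e| * A ≤ c e) →
    2 * (∫ y in (-A)..A, gU β1 β2 B c y) ≤ (volume (R β1 β2 A B c)).toReal

/-- Corner cuts of a polygon which touches the top side of its box. -/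
def ST_PD : Prop :=
  ∀ (κ : Type) [Fintype κ] (β1 β2 : κ → ℝ) (A B : ℝ) (c : κ → ℝ), 0 < A → 0 < B →
    (∀ e, 0 ≤ β2 e) → (∃ y ∈ R β1 β2 A B c, y.2 = B) →
    ∀ W : ℝ, 0 ≤ W →
    (∫ y in (-A)..A, gU β1 β2 B c y) ≤ 2 * A * B
      - (∫ U in (0:ℝ)..W, cut (fun e => 0 < β1 e) β1 β2 (fun e => |β1 e| * A + β2 e * B - c e) U)
      - (∫ U in (0:ℝ)..W, cut (fun e => β1 e < 0) β1 β2 (fun e => |β1 e| * A + β2 e * B - c e) U)

/-- Corner cuts, lower bound. -/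
def ST_PF : Prop :=
  ∀ (κ : Type) [Fintype κ] (β1 β2 : κ → ℝ) (A B : ℝ) (c : κ → ℝ), 0 < A → 0 < B →
    (∀ e, 0 ≤ β2 e) → (∀ e, β1 e = 0 → β2 e * B ≤ c e) →
    2 * A * B
      - (∫ U in (0:ℝ)..(2 * A),
          cut (fun e => 0 < β1 e) β1 β2 (fun e => |β1 e| * A + β2 e * B - c e) U)
      - (∫ U in (0:ℝ)..(2 * A),
          cut (fun e => β1 e < 0) β1 β2 (fun e => |β1 e| * A + β2 e * B - c e) U)
      ≤ ∫ y in (-A)..A, gU β1 β2 B c y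

/-- The depths of the cuts are midpoint convex. -/
def ST_PG : Prop :=
  ∀ (κ : Type) [Fintype κ] (s : κ → Prop) (β1 β2 X0 X1 X2 : κ → ℝ),
    (∀ e, 0 < X0 e → 2 * X0 e ≤ X1 e + X2 e) →
    (∀ U : ℝ, 0 ≤ U → 2 * cut s β1 β2 X0 U ≤ cut s β1 β2 X1 U + cut s β1 β2 X2 U) ∧
    Continuous (cut s β1 β2 X0) ∧ (∀ U, 0 ≤ cut s β1 β2 X0 U)

/-- The planar lemma in normalised form. -/
def ST_PR : Prop :=
  ∀ (κ : Type) [Fintype κ] (β1 β2 : κ → ℝ) (r : ℝ) (c1 c2 c0 : κ → ℝ), 1 ≤ r →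
    (∀ e, 0 ≤ β2 e) → (∀ e, c1 e + c2 e ≤ (r + r⁻¹) * c0 e) →
    (∃ y ∈ R β1 β2 r r⁻¹ c1, y.1 = r) → (∃ y ∈ R β1 β2 r r⁻¹ c1, y.2 = r⁻¹) →
    (∃ y ∈ R β1 β2 r⁻¹ r c2, y.1 = r⁻¹) → (∃ y ∈ R β1 β2 r⁻¹ r c2, y.2 = r) →
    (volume (R β1 β2 r r⁻¹ c1)).toReal + (volume (R β1 β2 r⁻¹ r c2)).toReal ≤
      2 * (volume (R β1 β2 1 1 c0)).toReal

/-- The planar lemma for projections. -/
def ST_PLA : Prop :=
  ∀ (ι : Type) [Fintype ι] (b : ι → (ℝ × ℝ) →ₗ[ℝ] ℝ) (q : ι → ℝ) (k l : ι),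
    (∀ u, 0 ≤ q u) → Spans (lins b q) →
    (∃ s : ℝ, 0 < s ∧ ∀ y, b k y = s * y.1) → q k = 0 →
    (∃ s : ℝ, 0 < s ∧ ∀ y, b l y = s * y.2) → q l = 0 →
    ∀ σ τ : ι → ℝ, Tight (lins b q) σ → Tight (lins b q) τ →
    (∀ u, σ u - τ u ≤ σ k - τ k) → (∀ u, σ l - τ l ≤ σ u - τ u) →
    A b q (ex σ) * A b q (ex τ) ≤ A b q (ex (mid σ τ)) ^ 2

/-- Nonpositivity of the defect in dimension three, nonzero functionals. -/
def ST_COR : Prop :=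
  ∀ (ι : Type) [Fintype ι] (E : Type) [NormedAddCommGroup E] [NormedSpace ℝ E]
    [FiniteDimensional ℝ E] [MeasureSpace E] [BorelSpace E]
    [(volume : Measure E).IsAddHaarMeasure] (a : ι → E →ₗ[ℝ] ℝ), Spans a →
    (∀ u, a u ≠ 0) → Module.finrank ℝ E = 3 → ∀ σ τ : ι → ℝ, Phi a σ τ ≤ 0

/-- Midpoint concavity and continuity give concavity. -/
def ST_MID : Prop :=
  ∀ (ι : Type) [Fintype ι] (f : (ι → ℝ) → ℝ), Continuous f →
    (∀ σ τ : ι → ℝ, f σ + f τ ≤ 2 * f (mid σ τ)) → ConcaveOn ℝ Set.univ f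

/-- The log-Brunn-Minkowski inequality for symmetric polytopes in dimension three. -/
def ST_INF : Prop :=
  ∀ (ι : Type) [Fintype ι] (E : Type) [NormedAddCommGroup E] [NormedSpace ℝ E]
    [FiniteDimensional ℝ E] [MeasureSpace E] [BorelSpace E]
    [(volume : Measure E).IsAddHaarMeasure] (a : ι → E →ₗ[ℝ] ℝ), Spans a →
    Module.finrank ℝ E = 3 → ConcaveOn ℝ Set.univ (G a)

/-- The coordinate functionals on a subspace. -/
def crd {n : ℕ} (H : Submodule ℝ (EuclideanSpace ℝ (Fin n))) (i : Fin n) : H →ₗ[ℝ] ℝ where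
  toFun x := (x : EuclideanSpace ℝ (Fin n)) i
  map_add' _ _ := rfl
  map_smul' _ _ := rfl

/-- From the cube to all exponents. -/
def ST_PIN : Prop :=
  ∀ (n : ℕ) (H : Submodule ℝ (EuclideanSpace ℝ (Fin n))),
    ConcaveOn ℝ Set.univ (G (crd H)) → ∀ p : ℝ, 1 ≤ p →
      Helper86.LP.IsLogConcave (Helper86.LP.sectionVolume p H)

/-- Three dimensional sections. -/
def ST_FIN : Prop :=
  ∀ (n : ℕ) (H : Submodule ℝ (EuclideanSpace ℝ (Fin n))), Module.finrank ℝ H = 3 →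
    (∀ p : ℝ, 1 ≤ p → Helper86.LP.IsLogConcave (Helper86.LP.sectionVolume p H)) ∧
    Helper86.LP.IsLogConcave (fun t : Fin n → ℝ =>
      (Helper86.LP.volumeIn H (Helper86.LP.diagExp t '' {x | ∀ i, |x i| ≤ 1})).toReal)

end Pool.Agent.Helper49.LBM
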